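import Pool.Agent.H706R2.Mah.Defs

namespace Pool.Agent.H706R2.Mah

open MeasureTheory Real Set Filter Topology
open scoped RealInnerProductSpace ENNReal

variable {n : ℕ}

namespace T11

/-- Gradient inequality. -/
theorem grad_ineq {u : E n → ℝ} (hu : ConvexOn ℝ univ u) {v x : E n}
    (hd : HasFDerivAt u (innerSL ℝ v) x) (y : E n) : u x + ⟪v, y - x⟫ ≤ u y := by
  let l : ℝ → E n := fun t => x + t • (y - x)
  have hl : HasDerivAt l (y - x) 0 := by
    have := ((hasDerivAt_id (0 : ℝ)).smul_const (y - x)).const_add x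
    simpa [l] using this
  have hl0 : l 0 = x := by simp [l]
  have hw : HasDerivAt (fun t : ℝ => u (l t)) ⟪v, y - x⟫ 0 := by
    have h1 : HasFDerivAt u (innerSL ℝ v) (l 0) := by rw [hl0]; exact hd
    have := h1.comp_hasDerivAt (0 : ℝ) hl
    rw [innerSL_apply_apply] at this
    exact this
  have hc : ConvexOn ℝ univ (fun t : ℝ => u (l t)) := by
    refine ⟨convex_univ, fun s _ t _ a b ha hb hab => ?_⟩
    have h1 := hu.2 (mem_univ (l s)) (mem_univ (l t)) ha hb hab
    have h2 : l (a • s + b • t) = a • l s + b • l t := by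
      have hb' : b = 1 - a := by linarith
      subst hb'
      simp only [l, smul_eq_mul]
      module
    show u (l (a • s + b • t)) ≤ a • u (l s) + b • u (l t)
    rw [h2]
    exact h1
  have h3 := hc.le_slope_of_hasDerivAt (mem_univ 0) (mem_univ 1) one_pos hw
  rw [slope_def_field] at h3
  have h4 : l 1 = y := by simp [l]
  rw [h4, hl0] at h3
  simp at h3
  linarith

theorem infDist_convex {Q : Set (E n)} (hQc : Convex ℝ Q) (hQ : IsCompact Q) (hne : Q.Nonempty) :
    ConvexOn ℝ univ (fun w : E n => Metric.infDist w Q) := by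
  refine ⟨convex_univ, fun x _ y _ a b ha hb hab => ?_⟩
  obtain ⟨p, hp, hpx⟩ := hQ.exists_infDist_eq_dist hne x
  obtain ⟨q, hq, hqy⟩ := hQ.exists_infDist_eq_dist hne y
  have h1 : a • p + b • q ∈ Q := hQc hp hq ha hb hab
  have h2 := Metric.infDist_le_dist_of_mem (x := a • x + b • y) h1
  refine h2.trans ?_
  simp only [smul_eq_mul]
  rw [hpx, hqy, dist_eq_norm, dist_eq_norm, dist_eq_norm]
  have h3 : a • x + b • y - (a • p + b • q) = a • (x - p) + b • (y - q) := by
    rw [smul_sub, smul_sub]; abel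
  rw [h3]
  refine (norm_add_le _ _).trans ?_
  rw [norm_smul, norm_smul, Real.norm_of_nonneg ha, Real.norm_of_nonneg hb]

theorem infDist_neg {Q : Set (E n)} (hQs : ∀ x ∈ Q, -x ∈ Q) (w : E n) :
    Metric.infDist (-w) Q = Metric.infDist w Q := by
  have h : (fun z : E n => -z) '' Q = Q := by
    ext z
    constructor
    · rintro ⟨y, hy, rfl⟩; exact hQs y hy
    · intro hz; exact ⟨-z, hQs z hz, by simp⟩
  have h2 := Metric.infDist_image (x := w) (t := Q) (Φ := fun z : E n => -z) isometry_neg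
  rw [h] at h2
  exact h2

end T11

open T11 in
/-- T11, assuming the statements of T9 (`H9`) and T10 (`H10`). -/
theorem T11_of
    (H9 : ∀ (δ C : ℝ) (g : E n → E n) (A : E n → Mat n), Nice δ C g A → ∀ (φ ψ : E n → ℝ),
      ConvexOn ℝ univ φ → ConvexOn ℝ univ ψ → Continuous φ → Continuous ψ →
      (∀ x, φ (-x) = φ x) → (∀ x, ψ (-x) = ψ x) → (∀ x, φ x + ψ (g x) ≤ ⟪x, g x⟫) →
      ENNReal.ofReal (((3 : ℝ) ^ (3 / 4 : ℝ) * π / 2) ^ n) ≤
        (∫⁻ x, ENNReal.ofReal (Real.exp (-φ x))) * ∫⁻ x, ENNReal.ofReal (Real.exp (-ψ x)))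
    (H10 : ∀ (f : E n → ℝ) (_ : ConvexOn ℝ univ f) (L : NNReal) (_ : LipschitzWith L f)
      (_ : ∀ x h, f (x + h) ≤ f x + f h) (ε : ℝ) (_ : 0 < ε),
      ∃ (u : E n → ℝ) (v : E n → E n) (B : E n → Mat n) (C : ℝ),
        ConvexOn ℝ univ u ∧ ((∀ x, f (-x) = f x) → ∀ x, u (-x) = u x) ∧
        (∀ x, |u x - f x| ≤ ε) ∧ (∀ x, HasFDerivAt u (innerSL ℝ (v x)) x) ∧
        (∀ x h, ⟪v x, h⟫ ≤ f h) ∧ (∀ x, HasFDerivAt v (clm (B x)) x) ∧ Continuous B ∧
        (∀ x, (B x).PosSemidef) ∧ (∀ x i j, |B x i j| ≤ C))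
    (f : E n → ℝ) (hf : ConvexOn ℝ univ f) (L : NNReal) (hL : LipschitzWith L f)
    (hsub : ∀ x h, f (x + h) ≤ f x + f h) (heven : ∀ x, f (-x) = f x)
    (Q : Set (E n)) (hQc : Convex ℝ Q) (hQcl : IsClosed Q) (hQb : Bornology.IsBounded Q)
    (hQ0 : (0 : E n) ∈ Q)
    (hQs : ∀ x ∈ Q, -x ∈ Q) (hfQ : ∀ v : E n, (∀ h, ⟪v, h⟫ ≤ f h) → v ∈ Q)
    (ε : ℝ) (hε : 0 < ε) :
    ENNReal.ofReal (((3 : ℝ) ^ (3 / 4 : ℝ) * π / 2) ^ n) ≤
      ENNReal.ofReal (Real.exp (2 * ε + f 0)) * (∫⁻ x, ENNReal.ofReal (Real.exp (-f x))) *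
        ∫⁻ x : E n, ENNReal.ofReal (Real.exp (-(Metric.infDist x Q ^ 2 / (2 * ε)))) := by
  obtain ⟨u, v, B, C, huc, hue, huf, hud, hvf, hvd, hBc, hBp, hBC⟩ :=
    H10 f hf L hL hsub ε hε
  have hue' := hue heven
  have hQk : IsCompact Q := Metric.isCompact_of_isClosed_isBounded hQcl hQb
  have hQne : Q.Nonempty := ⟨0, hQ0⟩
  have hvQ : ∀ x, v x ∈ Q := fun x => hfQ _ (hvf x)
  -- bound for v
  have hvb : ∀ x, ‖v x‖ ≤ |f 0| + L + 1 := by
    intro x
    have h1 := hvf x (v x)
    rw [real_inner_self_eq_norm_sq] at h1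
    have h2 : f (v x) ≤ f 0 + L * ‖v x‖ := by
      have := hL.dist_le_mul (v x) 0
      rw [Real.dist_eq, dist_zero_right] at this
      have := (abs_le.1 this).2
      linarith
    have h3 : ‖v x‖ ^ 2 ≤ |f 0| + L * ‖v x‖ := by
      have := le_abs_self (f 0)
      linarith
    by_contra hcon
    push Not at hcon
    have hL0 : (0 : ℝ) ≤ L := L.2
    have hf0 : 0 ≤ |f 0| := abs_nonneg _
    have h4 : 1 < ‖v x‖ := by linarith
    nlinarith
  have huc0 : Continuous u := continuous_iff_continuousAt.2 fun x => (hud x).continuousAt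
  set φ : E n → ℝ := fun x => u x + ε / 2 * ‖x‖ ^ 2 with hφdef
  set ψ : E n → ℝ := fun w => Metric.infDist w Q ^ 2 / (2 * ε) - u 0 with hψdef
  set g : E n → E n := fun x => v x + ε • x with hgdef
  set A : E n → Mat n := fun x => B x + ε • (1 : Mat n) with hAdef
  have hclmA : ∀ x, clm (A x) = clm (B x) + ε • ContinuousLinearMap.id ℝ (E n) := by
    intro x
    simp only [hAdef, clm, map_add, map_smul, map_one]
    rfl
  have hlowB : ∀ x h : E n, 0 ≤ ⟪h, clm (B x) h⟫ := by
    intro x h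
    have h1 := (hBp x).dotProduct_mulVec_nonneg h.ofLp
    have h2 : ⟪h, clm (B x) h⟫ = star h.ofLp ⬝ᵥ (B x).mulVec h.ofLp := by
      rw [EuclideanSpace.inner_eq_star_dotProduct]
      simp [dotProduct_comm]
    rw [h2]; exact h1
  have hnice : Nice ε (|C| + ε + |f 0| + L + 1) g A := by
    have hL0 : (0 : ℝ) ≤ L := L.2
    have hf0 : 0 ≤ |f 0| := abs_nonneg _
    have hC0 : 0 ≤ |C| := abs_nonneg _
    refine ⟨hε, by linarith, ?_, ?_, ?_, ?_, ?_, ?_⟩
    · intro x
      rw [hclmA]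
      exact (hvd x).add ((hasFDerivAt_id x).const_smul ε)
    · exact hBc.add continuous_const
    · intro x
      refine (hBp x).1.add ?_
      rw [Matrix.IsHermitian, Matrix.conjTranspose_smul, Matrix.conjTranspose_one]
      simp
    · intro x h
      rw [hclmA]
      simp only [add_apply, smul_apply,
        ContinuousLinearMap.id_apply, inner_add_right, inner_smul_right, real_inner_self_eq_norm_sq]
      have := hlowB x h
      linarith
    · intro x i j
      simp only [hAdef, Matrix.add_apply, Matrix.smul_apply, Matrix.one_apply, smul_eq_mul]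
      have h1 := hBC x i j
      have h2 : |ε * (if i = j then (1 : ℝ) else 0)| ≤ ε := by
        split_ifs
        · simp [abs_of_pos hε]
        · simp [hε.le]
      have h3 := le_abs_self C
      have h4 := abs_add_le (B x i j) (ε * (if i = j then (1 : ℝ) else 0))
      linarith
    · intro x
      have h1 : ‖g x‖ ≤ ‖v x‖ + ε * ‖x‖ := by
        refine (norm_add_le _ _).trans ?_
        rw [norm_smul, Real.norm_of_nonneg hε.le]
      have h2 := hvb x
      have h3 := norm_nonneg x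
      nlinarith [mul_nonneg hC0 h3, mul_nonneg hf0 h3, mul_nonneg hL0 h3]
  have hφc : ConvexOn ℝ univ φ := by
    refine huc.add ?_
    have h1 : ConvexOn ℝ univ (fun x : E n => ‖x‖ ^ 2) :=
      (convexOn_norm convex_univ).pow (fun x _ => norm_nonneg x) 2
    exact h1.smul (by positivity)
  have hψc : ConvexOn ℝ univ ψ := by
    have h1 : ConvexOn ℝ univ (fun w : E n => Metric.infDist w Q ^ 2) :=
      (infDist_convex hQc hQk hQne).pow (fun x _ => Metric.infDist_nonneg) 2
    have h2 := (h1.smul (c := (2 * ε)⁻¹) (by positivity)).add_const (-u 0)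
    refine h2.congr ?_
    intro w _
    simp only [hψdef, Pi.add_apply, smul_eq_mul, div_eq_inv_mul]
    ring
  have hφe : ∀ x, φ (-x) = φ x := by intro x; simp [hφdef, hue' x]
  have hψe : ∀ x, ψ (-x) = ψ x := by intro x; simp [hψdef, infDist_neg hQs]
  have hφcont : Continuous φ := by
    exact huc0.add (continuous_const.mul (continuous_norm.pow 2))
  have hψcont : Continuous ψ := by
    exact (((Metric.continuous_infDist_pt Q).pow 2).div_const _).sub continuous_const
  have hpair : ∀ x, φ x + ψ (g x) ≤ ⟪x, g x⟫ := by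
    intro x
    have h1 : Metric.infDist (g x) Q ≤ ε * ‖x‖ := by
      refine (Metric.infDist_le_dist_of_mem (hvQ x)).trans ?_
      rw [dist_eq_norm]
      have : g x - v x = ε • x := by simp [hgdef]
      rw [this, norm_smul, Real.norm_of_nonneg hε.le]
    have h2 := grad_ineq huc (hud x) 0
    rw [zero_sub, inner_neg_right] at h2
    have h3 : ⟪x, g x⟫ = ⟪v x, x⟫ + ε * ‖x‖ ^ 2 := by
      simp only [hgdef, inner_add_right, inner_smul_right, real_inner_self_eq_norm_sq]
      rw [real_inner_comm]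
    have h4 : Metric.infDist (g x) Q ^ 2 / (2 * ε) ≤ ε / 2 * ‖x‖ ^ 2 := by
      rw [div_le_iff₀ (by positivity)]
      have h5 : Metric.infDist (g x) Q ^ 2 ≤ (ε * ‖x‖) ^ 2 :=
        pow_le_pow_left₀ Metric.infDist_nonneg h1 2
      calc _ ≤ _ := h5
        _ = _ := by ring
    rw [h3]
    simp only [hφdef, hψdef]
    linarith
  have key := H9 _ _ g A hnice φ ψ hφc hψc hφcont hψcont hφe hψe hpair
  refine key.trans ?_
  have hI1 : (∫⁻ x, ENNReal.ofReal (Real.exp (-φ x))) ≤
      ENNReal.ofReal (Real.exp ε) * ∫⁻ x, ENNReal.ofReal (Real.exp (-f x)) := by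
    rw [← lintegral_const_mul' _ _ ENNReal.ofReal_ne_top]
    refine lintegral_mono fun x => ?_
    rw [← ENNReal.ofReal_mul (Real.exp_pos _).le, ← Real.exp_add]
    refine ENNReal.ofReal_le_ofReal (Real.exp_le_exp.2 ?_)
    have h1 := (abs_le.1 (huf x)).1
    have h2 : 0 ≤ ε / 2 * ‖x‖ ^ 2 := by positivity
    simp only [hφdef]
    linarith
  have hI2 : (∫⁻ x, ENNReal.ofReal (Real.exp (-ψ x))) ≤
      ENNReal.ofReal (Real.exp (ε + f 0)) *
        ∫⁻ x : E n, ENNReal.ofReal (Real.exp (-(Metric.infDist x Q ^ 2 / (2 * ε)))) := by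
    rw [← lintegral_const_mul' _ _ ENNReal.ofReal_ne_top]
    refine lintegral_mono fun x => ?_
    rw [← ENNReal.ofReal_mul (Real.exp_pos _).le, ← Real.exp_add]
    refine ENNReal.ofReal_le_ofReal (Real.exp_le_exp.2 ?_)
    have h1 := (abs_le.1 (huf 0)).2
    simp only [hψdef]
    linarith
  refine (mul_le_mul' hI1 hI2).trans (le_of_eq ?_)
  have h5 : ENNReal.ofReal (Real.exp (2 * ε + f 0)) =
      ENNReal.ofReal (Real.exp ε) * ENNReal.ofReal (Real.exp (ε + f 0)) := by
    rw [← ENNReal.ofReal_mul (Real.exp_pos _).le, ← Real.exp_add]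
    congr 2
    ring
  rw [h5]
  ring

end Pool.Agent.H706R2.Mah
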